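import Mathlib

set_option autoImplicit false

namespace PicJump

namespace RankAbs

/-- rank is invariant under maps with torsion kernel and cokernel -/
lemma rank_eq_of_torsion {N M : Type} [AddCommGroup N] [AddCommGroup M] (f : N →ₗ[ℤ] M)
    (hker : ∀ x, f x = 0 → ∃ a : ℤ, a ≠ 0 ∧ a • x = 0)
    (hcok : ∀ m, ∃ a : ℤ, a ≠ 0 ∧ ∃ x, f x = a • m) :
    Module.rank ℤ M = Module.rank ℤ N := by
  have h1 := f.rank_range_add_rank_ker
  have h2 := rank_quotient_add_rank_of_isDomain (LinearMap.range f)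
  have h3 : Module.rank ℤ (LinearMap.ker f) = 0 := by
    rw [rank_eq_zero_iff]
    rintro ⟨x, hx⟩
    obtain ⟨a, ha, hax⟩ := hker x hx
    exact ⟨a, ha, Subtype.ext hax⟩
  have h4 : Module.rank ℤ (M ⧸ LinearMap.range f) = 0 := by
    rw [rank_eq_zero_iff]
    intro y
    obtain ⟨m, rfl⟩ := Submodule.Quotient.mk_surjective _ y
    obtain ⟨a, ha, x, hx⟩ := hcok m
    refine ⟨a, ha, ?_⟩
    rw [← Submodule.Quotient.mk_smul, Submodule.Quotient.mk_eq_zero]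
    exact ⟨x, hx⟩
  rw [h3, add_zero] at h1
  rw [h4, zero_add] at h2
  rw [← h1, ← h2]

lemma rank_prod_Z {F E : Type} [AddCommGroup F] [AddCommGroup E] :
    Module.rank ℤ (F × E) = Module.rank ℤ F + Module.rank ℤ E := by
  have h1 := (LinearMap.snd ℤ F E).rank_range_add_rank_ker
  rw [LinearMap.range_eq_top.2 (fun y => ⟨(0, y), rfl⟩), rank_top] at h1
  rw [← h1, add_comm]
  congr 1
  have e : LinearMap.ker (LinearMap.snd ℤ F E) ≃ₗ[ℤ] F :=
    { toFun := fun x => x.1.1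
      invFun := fun y => ⟨(y, 0), by simp⟩
      map_add' := fun _ _ => rfl
      map_smul' := fun _ _ => rfl
      left_inv := by
        rintro ⟨⟨a, b⟩, h⟩
        simp only [LinearMap.mem_ker, LinearMap.snd_apply] at h
        subst h
        rfl
      right_inv := fun _ => rfl }
  exact e.rank_eq

theorem main {M E : Type} [AddCommGroup M] [AddCommGroup E] (α γ τ σ ι : M →+ M)
    (hατ : ∀ m, α (τ m) = τ (α m)) (hγτ : ∀ m, γ (τ m) = τ (γ m))
    (hαγ : ∀ m, α (γ m) = γ (α m)) (hττ : ∀ m, τ (τ m) = m)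
    (hσσ : ∀ m, σ (σ m) = m) (hιι : ∀ m, ι (ι m) = m)
    (hασ : ∀ m, α (σ m) = σ (α m)) (hτσ : ∀ m, τ (σ m) = σ (τ m))
    (hτι : ∀ m, τ (ι m) = ι (τ m)) (hγι : ∀ m, γ (ι m) = ι (γ m))
    (hγσ : ∀ m, γ (σ m) = σ (γ (τ m))) (hαι : ∀ m, α (ι m) = ι (α (τ m)))
    (c₀ c₁ : M) (hα0 : α c₀ = c₀) (hα1 : α c₁ = c₁) (hγ0 : γ c₀ = c₀) (hγ1 : γ c₁ = c₁)
    (hτ0 : τ c₀ = -c₀) (hτ1 : τ c₁ = -c₁)
    (w : E →+ M) (hwτ : ∀ P, τ (w P) = w P)
    (hwinj : ∀ P, ∀ n : ℕ, 0 < n → n • w P = 0 → ∃ m : ℕ, 0 < m ∧ m • P = 0)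
    (hw : ∀ m, ∃ (e : ℕ) (P : E), 0 < e ∧ e • (m + τ m) = w P)
    (hN : ∀ m, ∃ (e : ℕ) (x y : ℤ), 0 < e ∧
      e • (m + α m + γ m + α (γ m)) = x • c₀ + y • c₁)
    (hind : ∀ m₀ m₁ : ℤ, m₀ • c₀ + m₁ • c₁ = 0 → m₀ = 0 ∧ m₁ = 0) :
    Module.rank ℤ M = 8 + Module.rank ℤ E := by
  -- the span of `c₀`, `c₁`
  let L : (ℤ × ℤ) →+ M :=
    { toFun := fun x => x.1 • c₀ + x.2 • c₁
      map_zero' := by simp
      map_add' := by
        intro x y
        simp only [Prod.fst_add, Prod.snd_add, add_smul]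
        abel }
  have hL : ∀ x, L x = x.1 • c₀ + x.2 • c₁ := fun _ => rfl
  have hLα : ∀ x, α (L x) = L x := by
    intro x
    rw [hL, map_add, map_zsmul, map_zsmul, hα0, hα1]
  have hLγ : ∀ x, γ (L x) = L x := by
    intro x
    rw [hL, map_add, map_zsmul, map_zsmul, hγ0, hγ1]
  have hLτ : ∀ x, τ (L x) = - L x := by
    intro x
    rw [hL, map_add, map_zsmul, map_zsmul, hτ0, hτ1, smul_neg, smul_neg, neg_add]
  let Θ : ((ℤ × ℤ) × (ℤ × ℤ) × (ℤ × ℤ) × (ℤ × ℤ)) × E →+ M :=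
    { toFun := fun x => L x.1.1 + σ (L x.1.2.1) + ι (L x.1.2.2.1) + ι (σ (L x.1.2.2.2)) + w x.2
      map_zero' := by simp
      map_add' := by
        intro x y
        simp only [Prod.fst_add, Prod.snd_add, map_add]
        abel }
  have hΘ : ∀ x, Θ x = L x.1.1 + σ (L x.1.2.1) + ι (L x.1.2.2.1) + ι (σ (L x.1.2.2.2)) + w x.2 :=
    fun _ => rfl
  -- kernel
  have hker : ∀ x, Θ x = 0 → ∃ a : ℤ, a ≠ 0 ∧ a • x = 0 := by
    rintro ⟨⟨x1, x2, x3, x4⟩, P⟩ hx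
    rw [hΘ] at hx
    simp only at hx
    have hb1 : τ (L x1) = - L x1 := hLτ x1
    have hb2 : τ (σ (L x2)) = - σ (L x2) := by rw [hτσ, hLτ, map_neg]
    have hb3 : τ (ι (L x3)) = - ι (L x3) := by rw [hτι, hLτ, map_neg]
    have hb4 : τ (ι (σ (L x4))) = - ι (σ (L x4)) := by rw [hτι, hτσ, hLτ, map_neg, map_neg]
    have ha1 : α (L x1) = L x1 := hLα x1
    have ha2 : α (σ (L x2)) = σ (L x2) := by rw [hασ, hLα]
    have ha3 : α (ι (L x3)) = - ι (L x3) := by rw [hαι, hLτ, map_neg, map_neg, hLα]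
    have ha4 : α (ι (σ (L x4))) = - ι (σ (L x4)) := by
      rw [hαι, hτσ, hασ, hLτ, map_neg, map_neg, map_neg, hLα]
    have hg1 : γ (L x1) = L x1 := hLγ x1
    have hg2 : γ (σ (L x2)) = - σ (L x2) := by rw [hγσ, hLτ, map_neg, map_neg, hLγ]
    have hg3 : γ (ι (L x3)) = ι (L x3) := by rw [hγι, hLγ]
    have hg4 : γ (ι (σ (L x4))) = - ι (σ (L x4)) := by
      rw [hγι, hγσ, hLτ, map_neg, map_neg, map_neg, hLγ]
    -- generalize
    have key : ∀ y1 y2 y3 y4 v : M, τ y1 = -y1 → τ y2 = -y2 → τ y3 = -y3 → τ y4 = -y4 →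
        τ v = v → α y1 = y1 → α y2 = y2 → α y3 = -y3 → α y4 = -y4 → γ y1 = y1 → γ y2 = -y2 →
        γ y3 = y3 → γ y4 = -y4 → y1 + y2 + y3 + y4 + v = 0 →
        (8 : ℤ) • y1 = 0 ∧ (8 : ℤ) • y2 = 0 ∧ (8 : ℤ) • y3 = 0 ∧ (8 : ℤ) • y4 = 0 ∧
          (2 : ℕ) • v = 0 := by
      intro y1 y2 y3 y4 v t1 t2 t3 t4 t5 a1 a2 a3 a4 g1 g2 g3 g4 h
      have h1 : -y1 + -y2 + -y3 + -y4 + v = 0 := by
        have := congrArg τ h
        simpa only [map_add, map_zero, t1, t2, t3, t4, t5] using this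
      have hv : v + v = 0 := by
        have : v + v = (y1 + y2 + y3 + y4 + v) + (-y1 + -y2 + -y3 + -y4 + v) := by abel
        rw [this, h, h1, add_zero]
      have hy : (2 : ℤ) • y1 + (2 : ℤ) • y2 + (2 : ℤ) • y3 + (2 : ℤ) • y4 = 0 := by
        have : (2 : ℤ) • y1 + (2 : ℤ) • y2 + (2 : ℤ) • y3 + (2 : ℤ) • y4 =
          (y1 + y2 + y3 + y4 + v) - (-y1 + -y2 + -y3 + -y4 + v) := by
          simp only [two_smul]
          abel
        rw [this, h, h1, sub_zero]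
      have hya : (2 : ℤ) • y1 + (2 : ℤ) • y2 - (2 : ℤ) • y3 - (2 : ℤ) • y4 = 0 := by
        have := congrArg α hy
        simp only [map_add, map_zero, map_zsmul, a1, a2, a3, a4, smul_neg] at this
        rw [← this]
        abel
      have h12 : (4 : ℤ) • y1 + (4 : ℤ) • y2 = 0 := by
        have : (4 : ℤ) • y1 + (4 : ℤ) • y2 =
          ((2 : ℤ) • y1 + (2 : ℤ) • y2 + (2 : ℤ) • y3 + (2 : ℤ) • y4) +
          ((2 : ℤ) • y1 + (2 : ℤ) • y2 - (2 : ℤ) • y3 - (2 : ℤ) • y4) := by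
          have e4 : ∀ z : M, (4 : ℤ) • z = (2 : ℤ) • z + (2 : ℤ) • z := by
            intro z; rw [← add_smul]; norm_num
          rw [e4, e4]
          abel
        rw [this, hy, hya, add_zero]
      have h34 : (4 : ℤ) • y3 + (4 : ℤ) • y4 = 0 := by
        have : (4 : ℤ) • y3 + (4 : ℤ) • y4 =
          ((2 : ℤ) • y1 + (2 : ℤ) • y2 + (2 : ℤ) • y3 + (2 : ℤ) • y4) -
          ((2 : ℤ) • y1 + (2 : ℤ) • y2 - (2 : ℤ) • y3 - (2 : ℤ) • y4) := by
          have e4 : ∀ z : M, (4 : ℤ) • z = (2 : ℤ) • z + (2 : ℤ) • z := by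
            intro z; rw [← add_smul]; norm_num
          rw [e4, e4]
          abel
        rw [this, hy, hya, sub_zero]
      have h12' : (4 : ℤ) • y1 - (4 : ℤ) • y2 = 0 := by
        have := congrArg γ h12
        simp only [map_add, map_zero, map_zsmul, g1, g2, smul_neg] at this
        rw [← this]
        abel
      have h34' : (4 : ℤ) • y3 - (4 : ℤ) • y4 = 0 := by
        have := congrArg γ h34
        simp only [map_add, map_zero, map_zsmul, g3, g4, smul_neg] at this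
        rw [← this]
        abel
      have e8 : ∀ z : M, (8 : ℤ) • z = (4 : ℤ) • z + (4 : ℤ) • z := by
        intro z; rw [← add_smul]; norm_num
      refine ⟨?_, ?_, ?_, ?_, ?_⟩
      · have : (8 : ℤ) • y1 = ((4 : ℤ) • y1 + (4 : ℤ) • y2) + ((4 : ℤ) • y1 - (4 : ℤ) • y2) := by
          rw [e8]; abel
        rw [this, h12, h12', add_zero]
      · have : (8 : ℤ) • y2 = ((4 : ℤ) • y1 + (4 : ℤ) • y2) - ((4 : ℤ) • y1 - (4 : ℤ) • y2) := by
          rw [e8]; abel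
        rw [this, h12, h12', sub_zero]
      · have : (8 : ℤ) • y3 = ((4 : ℤ) • y3 + (4 : ℤ) • y4) + ((4 : ℤ) • y3 - (4 : ℤ) • y4) := by
          rw [e8]; abel
        rw [this, h34, h34', add_zero]
      · have : (8 : ℤ) • y4 = ((4 : ℤ) • y3 + (4 : ℤ) • y4) - ((4 : ℤ) • y3 - (4 : ℤ) • y4) := by
          rw [e8]; abel
        rw [this, h34, h34', sub_zero]
      · rw [two_smul]; exact hv
    obtain ⟨r1, r2, r3, r4, r5⟩ := key _ _ _ _ _ hb1 hb2 hb3 hb4 (hwτ P) ha1 ha2 ha3 ha4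
      hg1 hg2 hg3 hg4 hx
    have hLinj : ∀ x, (8 : ℤ) • L x = 0 → x = 0 := by
      intro x hx
      rw [hL, smul_add, smul_smul, smul_smul] at hx
      obtain ⟨h1, h2⟩ := hind _ _ hx
      ext
      · simpa using h1
      · simpa using h2
    have hσinj : ∀ m, σ m = 0 → m = 0 := by
      intro m hm
      rw [← hσσ m, hm, map_zero]
    have hιinj : ∀ m, ι m = 0 → m = 0 := by
      intro m hm
      rw [← hιι m, hm, map_zero]
    have z1 : x1 = 0 := hLinj _ r1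
    have z2 : x2 = 0 := hLinj _ (hσinj _ (by rw [map_zsmul]; exact r2))
    have z3 : x3 = 0 := hLinj _ (hιinj _ (by rw [map_zsmul]; exact r3))
    have z4 : x4 = 0 := hLinj _ (hσinj _ (hιinj _ (by rw [map_zsmul, map_zsmul]; exact r4)))
    obtain ⟨m, hm, hmP⟩ := hwinj P 2 (by norm_num) r5
    refine ⟨m, by exact_mod_cast hm.ne', ?_⟩
    rw [z1, z2, z3, z4]
    ext <;> simp [hmP]
  -- cokernel
  have hcok : ∀ m, ∃ a : ℤ, a ≠ 0 ∧ ∃ x, Θ x = a • m := by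
    intro m
    obtain ⟨e1, x1, y1, he1, h1⟩ := hN m
    obtain ⟨e2, x2, y2, he2, h2⟩ := hN (σ m)
    obtain ⟨e3, x3, y3, he3, h3⟩ := hN (ι m)
    obtain ⟨e4, x4, y4, he4, h4⟩ := hN (σ (ι m))
    -- the element m'
    obtain ⟨e5, P, he5, h5⟩ := hw (-(α (m + γ m + m + γ (τ m))) - γ (m + α m + m + α (τ m)) +
      α (γ (m + τ m)))
    have n2 : e2 • (m + α m + γ (τ m) + α (γ (τ m))) = σ (L (x2, y2)) := by
      rw [hL]
      simp only
      rw [← h2, map_nsmul]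
      simp only [map_add, hασ, hγσ, hσσ]
    have n3 : e3 • (m + α (τ m) + γ m + α (τ (γ m))) = ι (L (x3, y3)) := by
      rw [hL]
      simp only
      rw [← h3, map_nsmul]
      simp only [map_add, hαι, hγι, hιι]
    have n4 : e4 • (m + α (τ m) + γ (τ m) + α (γ m)) = ι (σ (L (x4, y4))) := by
      rw [hL]
      simp only
      rw [← h4, map_nsmul, map_nsmul]
      congr 1
      simp only [map_add, hασ, hγσ, hσσ, hαι, hγι, hτι, hιι, ← hατ, ← hγτ, hττ]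
    have hsum : (m + α m + γ m + α (γ m)) + (m + α m + γ (τ m) + α (γ (τ m))) +
        (m + α (τ m) + γ m + α (τ (γ m))) + (m + α (τ m) + γ (τ m) + α (γ m)) +
        ((-(α (m + γ m + m + γ (τ m))) - γ (m + α m + m + α (τ m)) + α (γ (m + τ m))) +
          τ (-(α (m + γ m + m + γ (τ m))) - γ (m + α m + m + α (τ m)) + α (γ (m + τ m)))) =
        (4 : ℕ) • m := by
      simp only [map_add, map_sub, map_neg, ← hατ, ← hγτ, ← hαγ, hττ]
      abel
    refine ⟨((e1 * e2 * e3 * e4 * e5 * 4 : ℕ) : ℤ), by positivity, ?_⟩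
    refine ⟨(((e2 * e3 * e4 * e5) • (x1, y1), (e1 * e3 * e4 * e5) • (x2, y2),
      (e1 * e2 * e4 * e5) • (x3, y3), (e1 * e2 * e3 * e5) • (x4, y4)),
      (e1 * e2 * e3 * e4) • P), ?_⟩
    rw [hΘ]
    simp only [map_nsmul]
    have n1 : e1 • (m + α m + γ m + α (γ m)) = L (x1, y1) := by
      rw [hL]
      exact h1
    rw [← n1, ← n2, ← n3, ← n4, ← h5, natCast_zsmul]
    have hE : (e1 * e2 * e3 * e4 * e5 * 4) • m = (e1 * e2 * e3 * e4 * e5) • ((4 : ℕ) • m) := by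
      rw [smul_smul]
    rw [hE, ← hsum]
    simp only [smul_smul]
    have q1 : e2 * e3 * e4 * e5 * e1 = e1 * e2 * e3 * e4 * e5 := by ring
    have q2 : e1 * e3 * e4 * e5 * e2 = e1 * e2 * e3 * e4 * e5 := by ring
    have q3 : e1 * e2 * e4 * e5 * e3 = e1 * e2 * e3 * e4 * e5 := by ring
    have q4 : e1 * e2 * e3 * e5 * e4 = e1 * e2 * e3 * e4 * e5 := by ring
    rw [q1, q2, q3, q4, ← smul_add, ← smul_add, ← smul_add, ← smul_add]
  have hmain := rank_eq_of_torsion (Θ.toIntLinearMap) hker hcok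
  rw [hmain, rank_prod_Z]
  congr 1
  simp only [rank_prod', Module.rank_self]
  norm_num

end RankAbs

end PicJump
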