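import Pool.Agent.Lib_helper51.DD_FDefs

/-!
# MP_a2cbb7_co : block FC (cells of the farthest point diagram)
-/

set_option autoImplicit false

namespace Pool.Agent.DD

open Finset Classical

noncomputable section

namespace FC

/-- power of `a` with respect to the circle with diameter `vz` -/
def al (v z a : ℂ) : ℝ := (a.re - v.re) * (a.re - z.re) + (a.im - v.im) * (a.im - z.im)

/-- point number `s` of the bisector of `v`, `z` -/
def ctr (v z : ℂ) (s : ℝ) : ℂ :=
  ⟨(v.re + z.re) / 2 - s * (z.im - v.im), (v.im + z.im) / 2 + s * (z.re - v.re)⟩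

theorem dist_sq (a b : ℂ) : dist a b ^ 2 = (a.re - b.re) ^ 2 + (a.im - b.im) ^ 2 := by
  rw [Complex.dist_eq, Complex.sq_norm, Complex.normSq_apply, Complex.sub_re, Complex.sub_im]
  ring

theorem ctr_id (v z a : ℂ) (s : ℝ) :
    dist a (ctr v z s) ^ 2 - dist v (ctr v z s) ^ 2 = al v z a - 2 * s * crs v z a := by
  simp only [dist_sq, ctr, al, crs, Complex.sub_re, Complex.sub_im]
  ring

theorem ctr_le (v z a : ℂ) (s : ℝ) :
    dist a (ctr v z s) ≤ dist v (ctr v z s) ↔ al v z a ≤ 2 * s * crs v z a := by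
  rw [← sq_le_sq₀ dist_nonneg dist_nonneg, ← sub_nonpos, ctr_id, sub_nonpos]

theorem ctr_lt (v z a : ℂ) (s : ℝ) :
    dist v (ctr v z s) < dist a (ctr v z s) ↔ 2 * s * crs v z a < al v z a := by
  rw [← sq_lt_sq₀ dist_nonneg dist_nonneg, ← sub_pos, ctr_id, sub_pos]

theorem ctr_eq (v z a : ℂ) (s : ℝ) (h : al v z a = 2 * s * crs v z a) :
    dist a (ctr v z s) = dist v (ctr v z s) := by
  have h1 := ctr_id v z a s
  rw [h, sub_self, sub_eq_zero] at h1
  exact (sq_eq_sq₀ dist_nonneg dist_nonneg).1 h1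

theorem crs_swap (v z a : ℂ) : crs z v a = - crs v z a := by
  simp only [crs, Complex.sub_re, Complex.sub_im]; ring

theorem al_swap (v z a : ℂ) : al z v a = al v z a := by
  simp only [al]; ring

theorem crs_v (v z : ℂ) : crs v z v = 0 := by simp [crs]
theorem crs_z (v z : ℂ) : crs v z z = 0 := by
  simp only [crs]; ring
theorem al_z (v z : ℂ) : al v z z = 0 := by simp [al]
theorem al_v (v z : ℂ) : al v z v = 0 := by simp [al]

theorem al_mul (v z a : ℂ) : al v z a * dist z v ^ 2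
    = crs v z a ^ 2 - dt v z a * dt z v a := by
  simp only [al, crs, dt, dist_sq, Complex.sub_re, Complex.sub_im]; ring

theorem dt_add (v z a : ℂ) : dt v z a + dt z v a = dist z v ^ 2 := by
  simp only [dt, dist_sq, Complex.sub_re, Complex.sub_im]; ring

theorem crs_dt (v z a : ℂ) : crs v z a ^ 2 + dt v z a ^ 2 = dist z v ^ 2 * dist a v ^ 2 := by
  simp only [dt, crs, dist_sq, Complex.sub_re, Complex.sub_im]; ring

theorem crs_par (v z m a : ℂ) (h : crs v z m = 0) :
    dist z v ^ 2 * crs v m a = dt v z m * crs v z a := by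
  have : dist z v ^ 2 * crs v m a - dt v z m * crs v z a = - (crs v z m * dt v z a) := by
    simp only [dt, crs, dist_sq, Complex.sub_re, Complex.sub_im]; ring
  rw [h, zero_mul, neg_zero, sub_eq_zero] at this
  exact this

theorem dt_par (v z m a : ℂ) (h : crs v z m = 0) :
    dist z v ^ 2 * dt v m a = dt v z m * dt v z a := by
  have : dist z v ^ 2 * dt v m a - dt v z m * dt v z a = crs v z m * crs v z a := by
    simp only [dt, crs, dist_sq, Complex.sub_re, Complex.sub_im]; ring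
  rw [h, zero_mul, sub_eq_zero] at this
  exact this

/-- the centre number `s` is in the farthest point Voronoi edge of `v`, `z` -/
def Gd (R : Finset ℂ) (v z : ℂ) (s : ℝ) : Prop := ∀ r ∈ R, al v z r ≤ 2 * s * crs v z r

theorem Gd.swap {R : Finset ℂ} {v z : ℂ} {s : ℝ} (h : Gd R v z s) : Gd R z v (-s) := by
  intro r hr
  have := h r hr
  rw [al_swap, crs_swap]
  linarith

/-- the points of `A` outside one of the discs of the edge -/
def FF (A R : Finset ℂ) (c : ℂ × ℂ) : Finset ℂ :=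
  A.filter (fun a => ∃ s, Gd R c.1 c.2 s ∧ 2 * s * crs c.1 c.2 a < al c.1 c.2 a)

theorem lowEnd (A R : Finset ℂ) (v z : ℂ) (hv : v ∈ R) (hz : z ∈ R) (hne : v ≠ z) (s₀ : ℝ)
    (h : Gd R v z s₀) :
    (∃ T ∈ Tri R, v ∈ T ∧ z ∈ T ∧ ∀ a ∈ A, (∃ s, Gd R v z s ∧ 2 * s * crs v z a < al v z a) →
      0 ≤ crs v z a → a ∈ Far A T) ∨ (∀ r ∈ R, crs v z r ≤ 0) := by
  by_cases hP : ∃ r ∈ R, 0 < crs v z r
  · left
    obtain ⟨r0, hr0, hr0'⟩ := hP
    obtain ⟨r1, hr1, hmax⟩ := Finset.exists_max_image (R.filter (fun r => 0 < crs v z r))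
      (fun r => al v z r / (2 * crs v z r)) ⟨r0, by simp [hr0, hr0']⟩
    rw [Finset.mem_filter] at hr1
    obtain ⟨hr1R, hr1p⟩ := hr1
    set s1 := al v z r1 / (2 * crs v z r1) with hs1
    have hs1' : al v z r1 = 2 * s1 * crs v z r1 := by
      rw [hs1]; field_simp
    have hle : ∀ s, Gd R v z s → s1 ≤ s := by
      intro s hs
      have := hs r1 hr1R
      rw [hs1'] at this
      have h3 : s1 * crs v z r1 ≤ s * crs v z r1 := by linarith
      exact le_of_mul_le_mul_right h3 hr1p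
    have hG : Gd R v z s1 := by
      intro r hr
      by_cases hc : 0 < crs v z r
      · have h1 := hmax r (by simp [hr, hc])
        rw [div_le_iff₀ (by positivity)] at h1
        linarith
      · have h1 := h r hr
        have h2 := hle s₀ h
        push Not at hc
        nlinarith
    have hv1 : v ≠ r1 := by rintro rfl; rw [crs_v] at hr1p; exact lt_irrefl _ hr1p
    have hz1 : z ≠ r1 := by rintro rfl; rw [crs_z] at hr1p; exact lt_irrefl _ hr1p
    have hT : ∀ t ∈ ({v, z, r1} : Finset ℂ), dist t (ctr v z s1) = dist v (ctr v z s1) := by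
      intro t ht
      simp only [Finset.mem_insert, Finset.mem_singleton] at ht
      rcases ht with rfl | rfl | rfl
      · rfl
      · exact ctr_eq _ _ _ _ (by rw [al_z, crs_z]; ring)
      · exact ctr_eq _ _ _ _ hs1'
    refine ⟨{v, z, r1}, ?_, by simp, by simp, ?_⟩
    · rw [Tri, Finset.mem_filter, Finset.mem_powersetCard]
      refine ⟨⟨?_, ?_⟩, ctr v z s1, dist v (ctr v z s1), hT, fun r hr =>
        (ctr_le _ _ _ _).2 (hG r hr)⟩
      · intro t ht
        simp only [Finset.mem_insert, Finset.mem_singleton] at ht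
        rcases ht with rfl | rfl | rfl <;> assumption
      · rw [Finset.card_insert_of_notMem (by simp [hne, hv1]),
          Finset.card_insert_of_notMem (by simp [hz1]), Finset.card_singleton]
    · rintro a ha ⟨s, hs, hs2⟩ hc
      rw [Far, Finset.mem_filter]
      refine ⟨ha, ctr v z s1, dist v (ctr v z s1), hT, (ctr_lt _ _ _ _).2 ?_⟩
      have h1 := hle s hs
      nlinarith
  · right
    push Not at hP
    exact hP

theorem wlem (A R : Finset ℂ) (v z : ℂ) (hz : z ∈ R) (hne : v ≠ z)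
    (h1 : ∀ r ∈ R, crs v z r ≤ 0) (h2 : ∀ r ∈ R, crs v z r = 0 → al v z r ≤ 0) :
    ∃ m ∈ (R.erase v).filter (fun m => Disjoint (W 1 A v m) R), crs v z m = 0 ∧ 0 < dt v z m ∧
      ∀ a ∈ A, (0 < crs v z a ∨ (crs v z a = 0 ∧ dt v z a < 0)) → a ∈ W 1 A v m := by
  have hd : 0 < dist z v ^ 2 := by have := dist_pos.2 hne.symm; positivity
  have hdt : ∀ r ∈ R, crs v z r = 0 → 0 ≤ dt v z r := by
    intro r hr hc
    have ha := h2 r hr hc
    have h3 := al_mul v z r
    have h4 := dt_add v z r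
    rw [hc] at h3
    by_contra hneg
    push Not at hneg
    have h5 : 0 < dt z v r := by linarith
    have h6 : 0 < - (dt v z r * dt z v r) := by nlinarith
    have h7 : al v z r * dist z v ^ 2 ≤ 0 := by nlinarith
    linarith
  obtain ⟨m, hm, hmin⟩ := Finset.exists_min_image (R.filter (fun r => r ≠ v ∧ crs v z r = 0))
    (fun r => dist r v) ⟨z, by simp [hz, hne.symm, crs_z]⟩
  rw [Finset.mem_filter] at hm
  obtain ⟨hmR, hmv, hmc⟩ := hm
  have hmd : 0 < dt v z m := by
    rcases (hdt m hmR hmc).lt_or_eq with h | h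
    · exact h
    · exfalso
      have h3 := crs_dt v z m
      rw [hmc, ← h] at h3
      have h4 : 0 < dist m v ^ 2 := by have := dist_pos.2 hmv; positivity
      nlinarith
  have hsign1 : ∀ a, 0 < crs v z a → 0 < crs v m a := by
    intro a ha
    have h3 := crs_par v z m a hmc
    have h4 : 0 < dist z v ^ 2 * crs v m a := by rw [h3]; positivity
    exact pos_of_mul_pos_right h4 hd.le
  have hsign0 : ∀ a, crs v z a = 0 → crs v m a = 0 := by
    intro a ha
    have h3 := crs_par v z m a hmc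
    rw [ha, mul_zero] at h3
    exact (mul_eq_zero.1 h3).resolve_left hd.ne'
  have hsign2 : ∀ a, dt v z a < 0 → dt v m a < 0 := by
    intro a ha
    have h3 := dt_par v z m a hmc
    have h4 : dist z v ^ 2 * dt v m a < 0 := by rw [h3]; nlinarith
    by_contra h5
    push Not at h5
    nlinarith
  refine ⟨m, ?_, hmc, hmd, ?_⟩
  · rw [Finset.mem_filter, Finset.mem_erase]
    refine ⟨⟨hmv, hmR⟩, ?_⟩
    rw [Finset.disjoint_left]
    intro r hr hrR
    rw [W, Finset.mem_filter] at hr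
    obtain ⟨_, hrv, hr⟩ := hr
    have h3 := crs_par v z m r hmc
    have h4 := dt_par v z m r hmc
    rcases hr with hr | ⟨hr0, hr⟩
    · rw [one_mul] at hr
      have h5 := h1 r hrR
      have h6 : 0 < dist z v ^ 2 * crs v m r := by positivity
      rw [h3] at h6
      nlinarith
    · have hc0 : crs v z r = 0 := by
        rw [hr0, mul_zero] at h3
        exact (mul_eq_zero.1 h3.symm).resolve_left hmd.ne'
      rcases hr with hr | ⟨_, hr⟩
      · have h5 := hdt r hrR hc0
        have h6 : dist z v ^ 2 * dt v m r < 0 := by nlinarith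
        rw [h4] at h6
        nlinarith
      · have h5 := hmin r (by simp [hrR, hrv, hc0])
        linarith
  · intro a ha hcase
    rw [W, Finset.mem_filter]
    refine ⟨ha, ?_, ?_⟩
    · rintro rfl
      rcases hcase with h | ⟨_, h⟩
      · rw [crs_v] at h; exact lt_irrefl _ h
      · simp [dt] at h
    · rcases hcase with h | ⟨h, h'⟩
      · left; rw [one_mul]; exact hsign1 a h
      · right; exact ⟨hsign0 a h, Or.inl (hsign2 a h')⟩

/-- uniqueness of `z` given `v` and a point of the open ray `vz` -/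
theorem uniq (R : Finset ℂ) (v z z' m : ℂ) (hz : z ∈ R) (hz' : z' ∈ R) (s s' : ℝ)
    (h : Gd R v z s) (h' : Gd R v z' s') (hm : crs v z m = 0) (hm2 : 0 < dt v z m)
    (hm' : crs v z' m = 0) : z = z' := by
  have hc : crs v z z' = 0 := by
    have e1 : (m.re - v.re) * crs v z z' = 0 := by
      have : (m.re - v.re) * crs v z z'
          = (z.re - v.re) * (- crs v z' m) + (z'.re - v.re) * crs v z m := by
        simp only [crs, Complex.sub_re, Complex.sub_im]; ring
      rw [this, hm, hm']; ring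
    have e2 : (m.im - v.im) * crs v z z' = 0 := by
      have : (m.im - v.im) * crs v z z'
          = (z.im - v.im) * (- crs v z' m) + (z'.im - v.im) * crs v z m := by
        simp only [crs, Complex.sub_re, Complex.sub_im]; ring
      rw [this, hm, hm']; ring
    by_contra hne
    have f1 := (mul_eq_zero.1 e1).resolve_right hne
    have f2 := (mul_eq_zero.1 e2).resolve_right hne
    have : dt v z m = 0 := by
      simp only [dt, Complex.sub_re, Complex.sub_im]; rw [f1, f2]; ring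
    linarith
  have hc' : crs v z' z = 0 := by
    have : crs v z' z = - crs v z z' := by
      simp only [crs, Complex.sub_re, Complex.sub_im]; ring
    rw [this, hc, neg_zero]
  have a1 := h z' hz'
  have a2 := h' z hz
  rw [hc, mul_zero] at a1
  rw [hc', mul_zero] at a2
  simp only [al] at a1 a2
  have h3 : (z.re - z'.re) ^ 2 + (z.im - z'.im) ^ 2 ≤ 0 := by nlinarith
  have h4 : z.re - z'.re = 0 := by nlinarith [sq_nonneg (z.re - z'.re), sq_nonneg (z.im - z'.im)]
  have h5 : z.im - z'.im = 0 := by nlinarith [sq_nonneg (z.re - z'.re), sq_nonneg (z.im - z'.im)]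
  exact Complex.ext (by linarith) (by linarith)

/-- every point has a cell -/
theorem cell_exists (R : Finset ℂ) (h2 : 2 ≤ R.card) (x : ℂ) :
    ∃ c : ℂ × ℂ, c.1 ∈ R ∧ c.2 ∈ R ∧ c.1 ≠ c.2 ∧ ∃ s, Gd R c.1 c.2 s ∧
      ∀ a, (∀ r ∈ R, dist r x < dist a x) → 2 * s * crs c.1 c.2 a < al c.1 c.2 a := by
  have hRne : R.Nonempty := Finset.card_pos.1 (by omega)
  obtain ⟨v, hv, hvmax⟩ := Finset.exists_max_image R (fun r => dist r x) hRne
  -- scalar product with `x - v`
  set ip : ℂ → ℝ := fun r => (r.re - v.re) * (x.re - v.re) + (r.im - v.im) * (x.im - v.im) with hip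
  have hid : ∀ r, dist r x ^ 2 - dist v x ^ 2 = dist r v ^ 2 - 2 * ip r := by
    intro r; simp only [dist_sq, hip]; ring
  have hin : ∀ r ∈ R, dist r v ^ 2 ≤ 2 * ip r := by
    intro r hr
    have h1 := hvmax r hr
    have h3 : dist r x ^ 2 ≤ dist v x ^ 2 := (sq_le_sq₀ dist_nonneg dist_nonneg).2 h1
    have := hid r
    linarith
  have hpos : ∀ r ∈ R, r ≠ v → 0 < ip r := by
    intro r hr hrv
    have h1 := hin r hr
    have h3 : 0 < dist r v ^ 2 := by have := dist_pos.2 hrv; positivity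
    linarith
  have hne2 : (R.erase v).Nonempty := by
    rw [← Finset.card_pos, Finset.card_erase_of_mem hv]; omega
  obtain ⟨z, hz, hzmax⟩ := Finset.exists_max_image (R.erase v) (fun r => dist r v ^ 2 / ip r) hne2
  rw [Finset.mem_erase] at hz
  obtain ⟨hzv, hzR⟩ := hz
  have hzp := hpos z hzR hzv
  set t := dist z v ^ 2 / ip z with ht
  have ht0 : 0 < t := by have := dist_pos.2 hzv; positivity
  have ht2 : t ≤ 2 := by rw [ht, div_le_iff₀ hzp]; exact hin z hzR
  have htz : dist z v ^ 2 = t * ip z := by rw [ht]; field_simp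
  have htr : ∀ r ∈ R, dist r v ^ 2 ≤ t * ip r := by
    intro r hr
    by_cases hrv : r = v
    · subst hrv; simp [hip]
    · have h1 := hzmax r (Finset.mem_erase.2 ⟨hrv, hr⟩)
      rwa [div_le_iff₀ (hpos r hr hrv)] at h1
  have hd : dist z v ^ 2 ≠ 0 := by have := dist_pos.2 hzv; positivity
  -- the parameter of the centre `v + (t/2)(x - v)` on the bisector
  set s := (t / 2) * ((x.im - v.im) * (z.re - v.re) - (x.re - v.re) * (z.im - v.im))
    / dist z v ^ 2 with hs
  have key : ∀ a, al v z a - 2 * s * crs v z a = dist a v ^ 2 - t * ip a := by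
    intro a
    have h1 : (al v z a - 2 * s * crs v z a) * dist z v ^ 2
        = (dist a v ^ 2 - t * ip a) * dist z v ^ 2 := by
      have h3 : s * dist z v ^ 2
          = (t / 2) * ((x.im - v.im) * (z.re - v.re) - (x.re - v.re) * (z.im - v.im)) := by
        rw [hs, div_mul_cancel₀ _ hd]
      have h4 : (al v z a - 2 * s * crs v z a) * dist z v ^ 2
          = al v z a * dist z v ^ 2 - 2 * (s * dist z v ^ 2) * crs v z a := by ring
      rw [h4, h3]
      have h5 : al v z a * dist z v ^ 2 - 2 * ((t / 2) *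
          ((x.im - v.im) * (z.re - v.re) - (x.re - v.re) * (z.im - v.im))) * crs v z a
          - (dist a v ^ 2 - t * ip a) * dist z v ^ 2
          = (t * ip z - dist z v ^ 2) * dt v z a := by
        simp only [al, crs, dt, dist_sq, hip, Complex.sub_re, Complex.sub_im]
        ring
      rw [htz] at h5 ⊢
      linarith
    exact mul_right_cancel₀ hd h1
  refine ⟨(v, z), hv, hzR, hzv.symm, s, ?_, ?_⟩
  · intro r hr
    have h1 := key r
    have h3 := htr r hr
    simp only at h1 ⊢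
    linarith
  · intro a ha
    have h1 := key a
    have h3 := ha v hv
    have h4 : dist v x ^ 2 < dist a x ^ 2 := (sq_lt_sq₀ dist_nonneg dist_nonneg).2 h3
    have h5 := hid a
    have h6 : t * ip a < dist a v ^ 2 := by
      by_cases hneg : 0 ≤ ip a
      · nlinarith
      · push Not at hneg
        have : t * ip a < 0 := mul_neg_of_pos_of_neg ht0 hneg
        have := sq_nonneg (dist a v)
        linarith
    simp only
    linarith

/-- the two sets covering `FF` -/
theorem two_sets (A R : Finset ℂ) (v z : ℂ) (hv : v ∈ R) (hz : z ∈ R) (hne : v ≠ z) (s₀ : ℝ)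
    (h : Gd R v z s₀) (Q : Finset ℂ → Prop)
    (hQ1 : ∀ T ∈ Tri R, v ∈ T → z ∈ T → Q (Far A T))
    (hQ2 : ∀ m ∈ (R.erase v).filter (fun m => Disjoint (W 1 A v m) R), crs v z m = 0 →
      0 < dt v z m → Q (W 1 A v m))
    (hQ3 : ∀ m ∈ (R.erase z).filter (fun m => Disjoint (W 1 A z m) R), crs z v m = 0 →
      0 < dt z v m → Q (W 1 A z m)) :
    ∃ S₁ S₂ : Finset ℂ, Q S₁ ∧ Q S₂ ∧ FF A R (v, z) ⊆ S₁ ∪ S₂ := by
  have hal : ∀ r ∈ R, crs v z r = 0 → al v z r ≤ 0 := by
    intro r hr hc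
    have := h r hr
    rwa [hc, mul_zero] at this
  have hal' : ∀ r ∈ R, crs z v r = 0 → al z v r ≤ 0 := by
    intro r hr hc
    have := h.swap r hr
    rwa [hc, mul_zero] at this
  have hmem : ∀ a, a ∈ FF A R (v, z) → a ∈ A ∧
      (∃ s, Gd R v z s ∧ 2 * s * crs v z a < al v z a) := by
    intro a ha
    rw [FF, Finset.mem_filter] at ha
    exact ha
  have hswap : ∀ a, (∃ s, Gd R v z s ∧ 2 * s * crs v z a < al v z a) →
      (∃ s, Gd R z v s ∧ 2 * s * crs z v a < al z v a) := by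
    rintro a ⟨s, hs1, hs2⟩
    refine ⟨-s, hs1.swap, ?_⟩
    rw [al_swap, crs_swap]
    linarith
  rcases lowEnd A R v z hv hz hne s₀ h with ⟨T1, hT1, hv1, hz1, hF1⟩ | hL1 <;>
  rcases lowEnd A R z v hz hv hne.symm (-s₀) h.swap with ⟨T2, hT2, hz2, hv2, hF2⟩ | hL2
  · refine ⟨_, _, hQ1 T1 hT1 hv1 hz1, hQ1 T2 hT2 hv2 hz2, fun a ha => ?_⟩
    obtain ⟨haA, has⟩ := hmem a ha
    rw [Finset.mem_union]
    by_cases hc : 0 ≤ crs v z a
    · exact Or.inl (hF1 a haA has hc)
    · right
      refine hF2 a haA (hswap a has) ?_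
      rw [crs_swap]; linarith
  · obtain ⟨m, hm, hmc, hmd, hW⟩ := wlem A R z v hv hne.symm hL2 hal'
    refine ⟨_, _, hQ1 T1 hT1 hv1 hz1, hQ3 m hm hmc hmd, fun a ha => ?_⟩
    obtain ⟨haA, has⟩ := hmem a ha
    rw [Finset.mem_union]
    by_cases hc : 0 ≤ crs v z a
    · exact Or.inl (hF1 a haA has hc)
    · right
      refine hW a haA (Or.inl ?_)
      rw [crs_swap]; linarith
  · obtain ⟨m, hm, hmc, hmd, hW⟩ := wlem A R v z hz hne hL1 hal
    refine ⟨_, _, hQ2 m hm hmc hmd, hQ1 T2 hT2 hv2 hz2, fun a ha => ?_⟩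
    obtain ⟨haA, has⟩ := hmem a ha
    rw [Finset.mem_union]
    by_cases hc : 0 < crs v z a
    · exact Or.inl (hW a haA (Or.inl hc))
    · right
      refine hF2 a haA (hswap a has) ?_
      rw [crs_swap]; linarith
  · obtain ⟨m, hm, hmc, hmd, hW⟩ := wlem A R v z hz hne hL1 hal
    obtain ⟨m', hm', hmc', hmd', hW'⟩ := wlem A R z v hv hne.symm hL2 hal'
    refine ⟨_, _, hQ2 m hm hmc hmd, hQ3 m' hm' hmc' hmd', fun a ha => ?_⟩
    obtain ⟨haA, has⟩ := hmem a ha
    rw [Finset.mem_union]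
    rcases lt_trichotomy (crs v z a) 0 with hc | hc | hc
    · right
      refine hW' a haA (Or.inl ?_)
      rw [crs_swap]; linarith
    · obtain ⟨s, _, hs2⟩ := has
      rw [hc, mul_zero] at hs2
      have h3 := al_mul v z a
      have h4 := dt_add v z a
      have hd : 0 < dist z v ^ 2 := by have := dist_pos.2 hne.symm; positivity
      rw [hc] at h3
      have h5 : dt v z a * dt z v a < 0 := by nlinarith
      rcases lt_or_ge (dt v z a) 0 with h6 | h6
      · exact Or.inl (hW a haA (Or.inr ⟨hc, h6⟩))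
      · right
        refine hW' a haA (Or.inr ⟨by rw [crs_swap, hc, neg_zero], ?_⟩)
        by_contra h7
        push Not at h7
        nlinarith
    · exact Or.inl (hW a haA (Or.inl hc))

theorem exp_le_of_two (p : ℝ) (hp : 0 < p) (F S₁ S₂ : Finset ℂ) (B : ℝ) (hF : F ⊆ S₁ ∪ S₂)
    (h1 : Real.exp (p * S₁.card / 4) ≤ B) (h2 : Real.exp (p * S₂.card / 4) ≤ B) :
    Real.exp (p * F.card / 8) ≤ B := by
  have h3 : (F.card : ℝ) ≤ S₁.card + S₂.card := by
    exact_mod_cast (Finset.card_le_card hF).trans (Finset.card_union_le _ _)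
  rcases le_total (S₁.card : ℝ) S₂.card with h | h
  · refine le_trans (Real.exp_le_exp.2 ?_) h2
    have : p * F.card ≤ p * (2 * S₂.card) := mul_le_mul_of_nonneg_left (by linarith) hp.le
    linarith
  · refine le_trans (Real.exp_le_exp.2 ?_) h1
    have : p * F.card ≤ p * (2 * S₁.card) := mul_le_mul_of_nonneg_left (by linarith) hp.le
    linarith

end FC

open FC

theorem cells (A R : Finset ℂ) (hA : NC A) (hR : R ⊆ A) (h2 : 2 ≤ R.card) (p : ℝ) (hp : 0 < p) :
    ∃ (cell : ℂ → ℂ × ℂ) (F : ℂ × ℂ → Finset ℂ),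
      (∀ x ∈ A, F (cell x) ⊆ A ∧ A.filter (fun a => ∀ r ∈ R, dist r x < dist a x) ⊆ F (cell x)) ∧
      ∑ c ∈ A.image cell, Real.exp (p * (F c).card / 8) ≤
        12 * ∑ T ∈ Tri R, Real.exp (p * (Far A T).card / 4) +
        2 * ∑ v ∈ R, ∑ z ∈ (R.erase v).filter (fun z => Disjoint (W 1 A v z) R),
          Real.exp (p * (W 1 A v z).card / 4) +
        2 * ∑ v ∈ R, ∑ z ∈ (R.erase v).filter (fun z => Disjoint (W (-1) A v z) R),
          Real.exp (p * (W (-1) A v z).card / 4) := by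
  choose cell hc1 hc2 hc3 s hs1 hs2 using fun x => cell_exists R h2 x
  refine ⟨cell, FF A R, fun x _ => ⟨Finset.filter_subset _ _, ?_⟩, ?_⟩
  · intro a ha
    rw [Finset.mem_filter] at ha
    rw [FF, Finset.mem_filter]
    exact ⟨ha.1, s x, hs1 x, hs2 x a ha.2⟩
  set I := A.image cell with hI
  have hIp : ∀ c ∈ I, c.1 ∈ R ∧ c.2 ∈ R ∧ c.1 ≠ c.2 ∧ ∃ s, Gd R c.1 c.2 s := by
    intro c hc
    obtain ⟨x, _, rfl⟩ := Finset.mem_image.1 hc
    exact ⟨hc1 x, hc2 x, hc3 x, s x, hs1 x⟩
  set ET : Finset ℂ → ℝ := fun T => Real.exp (p * (Far A T).card / 4) with hET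
  set EW : ℂ → ℂ → ℝ := fun v m => Real.exp (p * (W 1 A v m).card / 4) with hEW
  set DJ : ℂ → Finset ℂ := fun v => (R.erase v).filter (fun z => Disjoint (W 1 A v z) R) with hDJ
  have hET0 : ∀ T, 0 ≤ ET T := fun T => (Real.exp_pos _).le
  have hEW0 : ∀ v m, 0 ≤ EW v m := fun v m => (Real.exp_pos _).le
  -- bound for one cell
  have hcell : ∀ c ∈ I, Real.exp (p * (FF A R c).card / 8) ≤
      ∑ T ∈ Tri R, (if c.1 ∈ T ∧ c.2 ∈ T then ET T else 0) +
      (∑ v ∈ R, ∑ m ∈ DJ v,
        (if v = c.1 ∧ crs c.1 c.2 m = 0 ∧ 0 < dt c.1 c.2 m then EW v m else 0) +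
      ∑ v ∈ R, ∑ m ∈ DJ v,
        (if v = c.2 ∧ crs c.2 c.1 m = 0 ∧ 0 < dt c.2 c.1 m then EW v m else 0)) := by
    rintro ⟨v, z⟩ hc
    obtain ⟨hv, hz, hne, s₀, hG⟩ := hIp _ hc
    simp only at hv hz hne hG ⊢
    have n1 : 0 ≤ ∑ T ∈ Tri R, (if v ∈ T ∧ z ∈ T then ET T else 0) :=
      Finset.sum_nonneg fun T _ => by split_ifs <;> simp [hET0]
    have n2' : ∀ v', 0 ≤ ∑ m ∈ DJ v',
        (if v' = v ∧ crs v z m = 0 ∧ 0 < dt v z m then EW v' m else 0) := fun v' =>
      Finset.sum_nonneg fun m _ => by split_ifs <;> simp [hEW0]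
    have n3' : ∀ v', 0 ≤ ∑ m ∈ DJ v',
        (if v' = z ∧ crs z v m = 0 ∧ 0 < dt z v m then EW v' m else 0) := fun v' =>
      Finset.sum_nonneg fun m _ => by split_ifs <;> simp [hEW0]
    have n2 := Finset.sum_nonneg (s := R) (fun v' _ => n2' v')
    have n3 := Finset.sum_nonneg (s := R) (fun v' _ => n3' v')
    obtain ⟨S₁, S₂, hS1, hS2, hsub⟩ := two_sets A R v z hv hz hne s₀ hG
      (fun S => Real.exp (p * S.card / 4) ≤
        ∑ T ∈ Tri R, (if v ∈ T ∧ z ∈ T then ET T else 0) +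
        (∑ v' ∈ R, ∑ m ∈ DJ v',
          (if v' = v ∧ crs v z m = 0 ∧ 0 < dt v z m then EW v' m else 0) +
        ∑ v' ∈ R, ∑ m ∈ DJ v',
          (if v' = z ∧ crs z v m = 0 ∧ 0 < dt z v m then EW v' m else 0)))
      (by
        intro T hT hvT hzT
        have h3 := Finset.single_le_sum (f := fun T => if v ∈ T ∧ z ∈ T then ET T else 0)
          (fun T _ => by split_ifs <;> simp [hET0]) hT
        simp only [hvT, hzT, and_self, if_true] at h3
        linarith)
      (by
        intro m hm hmc hmd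
        have h3 : EW v m ≤ ∑ m ∈ DJ v,
            (if v = v ∧ crs v z m = 0 ∧ 0 < dt v z m then EW v m else 0) := by
          refine le_trans (le_of_eq ?_) (Finset.single_le_sum
            (f := fun m => if v = v ∧ crs v z m = 0 ∧ 0 < dt v z m then EW v m else 0)
            (fun m _ => by split_ifs <;> simp [hEW0]) hm)
          exact (if_pos ⟨rfl, hmc, hmd⟩).symm
        have h4 := Finset.single_le_sum (f := fun v' => ∑ m ∈ DJ v',
          (if v' = v ∧ crs v z m = 0 ∧ 0 < dt v z m then EW v' m else 0))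
          (fun v' _ => n2' v') hv
        have h5 := h3.trans h4
        simp only [hEW] at h5
        linarith)
      (by
        intro m hm hmc hmd
        have h3 : EW z m ≤ ∑ m ∈ DJ z,
            (if z = z ∧ crs z v m = 0 ∧ 0 < dt z v m then EW z m else 0) := by
          refine le_trans (le_of_eq ?_) (Finset.single_le_sum
            (f := fun m => if z = z ∧ crs z v m = 0 ∧ 0 < dt z v m then EW z m else 0)
            (fun m _ => by split_ifs <;> simp [hEW0]) hm)
          exact (if_pos ⟨rfl, hmc, hmd⟩).symm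
        have h4 := Finset.single_le_sum (f := fun v' => ∑ m ∈ DJ v',
          (if v' = z ∧ crs z v m = 0 ∧ 0 < dt z v m then EW v' m else 0))
          (fun v' _ => n3' v') hz
        have h5 := h3.trans h4
        simp only [hEW] at h5
        linarith)
    exact exp_le_of_two p hp _ S₁ S₂ _ hsub hS1 hS2
  -- summation
  have hsumT : ∑ c ∈ I, ∑ T ∈ Tri R, (if c.1 ∈ T ∧ c.2 ∈ T then ET T else 0)
      ≤ 6 * ∑ T ∈ Tri R, ET T := by
    rw [Finset.sum_comm, Finset.mul_sum]
    refine Finset.sum_le_sum fun T hT => ?_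
    rw [← Finset.sum_filter, Finset.sum_const, nsmul_eq_mul]
    refine mul_le_mul_of_nonneg_right ?_ (hET0 T)
    have hT3 : T.card = 3 := by
      rw [Tri, Finset.mem_filter, Finset.mem_powersetCard] at hT
      exact hT.1.2
    have hsub : I.filter (fun c => c.1 ∈ T ∧ c.2 ∈ T) ⊆ T.offDiag := by
      intro c hc
      rw [Finset.mem_filter] at hc
      rw [Finset.mem_offDiag]
      exact ⟨hc.2.1, hc.2.2, (hIp c hc.1).2.2.1⟩
    have := Finset.card_le_card hsub
    rw [Finset.offDiag_card, hT3] at this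
    exact_mod_cast this
  have hsum1 : ∑ c ∈ I, ∑ v ∈ R, ∑ m ∈ DJ v,
      (if v = c.1 ∧ crs c.1 c.2 m = 0 ∧ 0 < dt c.1 c.2 m then EW v m else 0)
      ≤ ∑ v ∈ R, ∑ m ∈ DJ v, EW v m := by
    rw [Finset.sum_comm]
    refine Finset.sum_le_sum fun v _ => ?_
    rw [Finset.sum_comm]
    refine Finset.sum_le_sum fun m _ => ?_
    rw [← Finset.sum_filter, Finset.sum_const, nsmul_eq_mul]
    have : (I.filter (fun c => v = c.1 ∧ crs c.1 c.2 m = 0 ∧ 0 < dt c.1 c.2 m)).card ≤ 1 := by
      rw [Finset.card_le_one]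
      rintro ⟨a, b⟩ ha ⟨a', b'⟩ ha'
      rw [Finset.mem_filter] at ha ha'
      obtain ⟨haI, hav, ha1, ha2⟩ := ha
      obtain ⟨haI', hav', ha1', ha2'⟩ := ha'
      simp only at hav ha1 ha2 hav' ha1' ha2'
      subst hav
      subst hav'
      obtain ⟨_, hb, _, s1, hs1⟩ := hIp _ haI
      obtain ⟨_, hb', _, s2, hs2⟩ := hIp _ haI'
      rw [uniq R v b b' m hb hb' s1 s2 hs1 hs2 ha1 ha2 ha1']
    calc ((I.filter (fun c => v = c.1 ∧ crs c.1 c.2 m = 0 ∧ 0 < dt c.1 c.2 m)).card : ℝ)
          * EW v m ≤ 1 * EW v m := mul_le_mul_of_nonneg_right (by exact_mod_cast this) (hEW0 v m)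
      _ = EW v m := one_mul _
  have hsum2 : ∑ c ∈ I, ∑ v ∈ R, ∑ m ∈ DJ v,
      (if v = c.2 ∧ crs c.2 c.1 m = 0 ∧ 0 < dt c.2 c.1 m then EW v m else 0)
      ≤ ∑ v ∈ R, ∑ m ∈ DJ v, EW v m := by
    rw [Finset.sum_comm]
    refine Finset.sum_le_sum fun v _ => ?_
    rw [Finset.sum_comm]
    refine Finset.sum_le_sum fun m _ => ?_
    rw [← Finset.sum_filter, Finset.sum_const, nsmul_eq_mul]
    have : (I.filter (fun c => v = c.2 ∧ crs c.2 c.1 m = 0 ∧ 0 < dt c.2 c.1 m)).card ≤ 1 := by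
      rw [Finset.card_le_one]
      rintro ⟨a, b⟩ ha ⟨a', b'⟩ ha'
      rw [Finset.mem_filter] at ha ha'
      obtain ⟨haI, hav, ha1, ha2⟩ := ha
      obtain ⟨haI', hav', ha1', ha2'⟩ := ha'
      simp only at hav ha1 ha2 hav' ha1' ha2'
      subst hav
      subst hav'
      obtain ⟨hb, _, _, s1, hs1⟩ := hIp _ haI
      obtain ⟨hb', _, _, s2, hs2⟩ := hIp _ haI'
      rw [uniq R v a a' m hb hb' (-s1) (-s2) hs1.swap hs2.swap ha1 ha2 ha1']
    calc ((I.filter (fun c => v = c.2 ∧ crs c.2 c.1 m = 0 ∧ 0 < dt c.2 c.1 m)).card : ℝ)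
          * EW v m ≤ 1 * EW v m := mul_le_mul_of_nonneg_right (by exact_mod_cast this) (hEW0 v m)
      _ = EW v m := one_mul _
  have htot := Finset.sum_le_sum hcell
  rw [Finset.sum_add_distrib, Finset.sum_add_distrib] at htot
  have hTn : 0 ≤ ∑ T ∈ Tri R, ET T := Finset.sum_nonneg fun T _ => hET0 T
  have hlast : 0 ≤ 2 * ∑ v ∈ R, ∑ z ∈ (R.erase v).filter (fun z => Disjoint (W (-1) A v z) R),
          Real.exp (p * (W (-1) A v z).card / 4) := by
    refine mul_nonneg (by norm_num) (Finset.sum_nonneg fun v _ => Finset.sum_nonneg fun z _ => ?_)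
    exact (Real.exp_pos _).le
  linarith

end

end Pool.Agent.DD
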