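import Pool.Agent.Lib_helper60.DD.Defs

/-!
# MP_a2cbb7_co : definitions of block F (verbatim from Wanted.lean), shared by FA, FB, FC, FD
-/

set_option autoImplicit false

namespace Pool.Agent.DD

open Finset Classical

noncomputable section

/-- `> 0` iff `a` is strictly to the left of the ray from `v` through `z` -/
def crs (v z a : ℂ) : ℝ := (z - v).re * (a - v).im - (z - v).im * (a - v).re

def dt (v z a : ℂ) : ℝ := (z - v).re * (a - v).re + (z - v).im * (a - v).im

/-- points strictly left (for `ε = 1`, right for `ε = -1`) of the ray `vz`, on the back ray, or on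
the forward ray and closer than `z` -/
def W (ε : ℝ) (A : Finset ℂ) (v z : ℂ) : Finset ℂ :=
  A.filter (fun a => a ≠ v ∧ (0 < ε * crs v z a ∨ (crs v z a = 0 ∧
    (dt v z a < 0 ∨ (0 < dt v z a ∧ dist a v < dist z v)))))

/-- half plane depth of `v` -/
def depth (A : Finset ℂ) (v : ℂ) : ℕ :=
  sInf {k : ℕ | ∃ u : ℂ, u ≠ 0 ∧
    k = ((A.erase v).filter (fun a => 0 ≤ (a - v).re * u.re + (a - v).im * u.im)).card}

/-- `v` is strictly extreme in `R` -/
def SE (R : Finset ℂ) (v : ℂ) : Prop :=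
  ∃ u : ℂ, u ≠ 0 ∧ ∀ r ∈ R, r ≠ v → 0 < (r - v).re * u.re + (r - v).im * u.im

/-- triples of `R` whose circumcircle contains all of `R` in its closed disc -/
def Tri (R : Finset ℂ) : Finset (Finset ℂ) :=
  (R.powersetCard 3).filter (fun T => ∃ (w : ℂ) (ρ : ℝ), (∀ t ∈ T, dist t w = ρ) ∧ ∀ r ∈ R, dist r w ≤ ρ)

/-- points of `A` outside the circumcircle of `T` -/
def Far (A T : Finset ℂ) : Finset ℂ :=
  A.filter (fun a => ∃ (w : ℂ) (ρ : ℝ), (∀ t ∈ T, dist t w = ρ) ∧ ρ < dist a w)

end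

end Pool.Agent.DD
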